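import Pool.Agent.H5.M0ef770

set_option autoImplicit false

namespace Pool.Agent.Results.MP_0ef770_co.DegreeAtLeastTwo

open Pool.Agent.H5.M0ef770

/-- For an integer polynomial `p` of degree at least two, the equation `x - 2 y = p(z)` is
partition regular over the positive integers if and only if `p(z) = -z` for some positive integer
`z` (and then `x = y = z` is a solution). -/
theorem result (p : Polynomial ℤ) (hd : 2 ≤ p.natDegree) :
    IsPartitionRegular p ↔ ∃ z : ℕ, 0 < z ∧ p.eval (z : ℤ) = -(z : ℤ) :=
  main p hd

end Pool.Agent.Results.MP_0ef770_co.DegreeAtLeastTwo
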